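import Pool.Agent.W606.PS.Stm

/-!
Project PS, part ONE3: one step for a region with three classes.
-/

set_option autoImplicit false

open Set Relation

namespace Pool.Agent.W839.PS

open Pool.Agent.W606.PS

theorem main (h : S_ADV) : S_ONE3 := by
  classical
  intro V T _ G tv k N U part lev C _hS hst hinv Om hOm hreg
  obtain ⟨Z, x, hRD, hx, hxCl, hpart⟩ := hreg
  obtain ⟨F, hF, hLip⟩ := (hinv.reg Om hOm).2
  have hNU : ∀ z ∈ Nb G Om, z ∈ U := by
    intro z hz
    by_contra hzU
    obtain ⟨u, hu, e⟩ := hz.2
    exact hz.1 (hOm.2.2 u hu z hzU e)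
  have hZO : ∀ v, v ∉ Om ↔ ∃ i, v ∈ Z i := by
    intro v
    have h1 : v ∈ Omᶜ ↔ v ∈ ⋃ i, Z i := by rw [hRD.cov]
    rw [mem_iUnion] at h1
    exact h1
  obtain ⟨Y, F', hYO, hYne, hF'F, hLip', hrng, hcard, hcomp⟩ := hst Om Z hRD F hLip (by
    intro v hv
    have h1 := hF v hv
    have h2 := hinv.lev_le v (hNU v hv)
    rw [h1]
    constructor
    · positivity
    · exact_mod_cast h2)
  set D : Finset ℕ := Finset.univ.image x with hD
  have hxD : ∀ i, x i ∈ D := fun i => Finset.mem_image_of_mem x (Finset.mem_univ i)
  have hC' : ∀ p, p < N → (fun p => if p = N then D else C p) p = C p := by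
    intro p hp
    exact if_neg (ne_of_lt hp)
  have hC'N : (fun p => if p = N then D else C p) N = D := if_pos rfl
  obtain ⟨lev', hI⟩ := h V T G tv (2 * k) 36 N U part lev C hinv Om hOm Y hYO hYne D
    (by
      rw [hD]
      refine Finset.card_image_le.trans ?_
      simp)
    (by
      intro d hd
      obtain ⟨i, -, rfl⟩ := Finset.mem_image.mp hd
      exact hx i)
    (by
      intro d hd d' hd'
      obtain ⟨i, -, rfl⟩ := Finset.mem_image.mp hd
      obtain ⟨j, -, rfl⟩ := Finset.mem_image.mp hd'
      exact hxCl i j)
    (by
      intro z hz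
      obtain ⟨i, hi⟩ := (hZO z).mp hz.1
      rw [hpart i z hz hi]
      exact hxD i)
    F' (fun z hz => by rw [hF'F z hz, hF z hz]) hLip'
    (fun v => ⟨(hrng v).1, by
      have := (hrng v).2
      exact_mod_cast this⟩)
    hcard
    (by
      intro Om' hOm'
      obtain ⟨i, hnt, hcon⟩ := hcomp Om' hOm'
      have hOO : ∀ v ∈ Om', v ∈ Om := fun v hv => (hOm'.1 hv).1
      have hOY : ∀ v ∈ Om', v ∉ Y := fun v hv => (hOm'.1 hv).2
      have hup : ∀ j, j ≠ i → Function.update Z i (Z i ∪ (Om \ Om')) j = Z j := fun j hj =>
        Function.update_of_ne hj _ _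
      have hui : Function.update Z i (Z i ∪ (Om \ Om')) i = Z i ∪ (Om \ Om') :=
        Function.update_self _ _ _
      have hxp : ∀ j, j ≠ i → Function.update x i N j = x j := fun j hj =>
        Function.update_of_ne hj _ _
      have hxi : Function.update x i N i = N := Function.update_self _ _ _
      have hsup : ∀ j, Z j ⊆ Function.update Z i (Z i ∪ (Om \ Om')) j := by
        intro j
        by_cases hj : j = i
        · subst hj
          rw [hui]
          exact subset_union_left
        · rw [hup j hj]
      refine Or.inr (Or.inr ⟨Function.update Z i (Z i ∪ (Om \ Om')), Function.update x i N,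
        ?_, ?_, ?_, ?_, ?_, ?_, ?_⟩)
      · intro j
        by_cases hj : j = i
        · subst hj
          rw [hui]
          exact hcon
        · rw [hup j hj]
          exact hRD.con j
      · intro a b hab
        by_cases ha : a = i
        · subst ha
          rw [hui, hup b (Ne.symm hab), Set.disjoint_union_left]
          refine ⟨hRD.disj _ _ hab, ?_⟩
          rw [Set.disjoint_left]
          intro v hv hvb
          exact (hZO v).mpr ⟨b, hvb⟩ hv.1
        · by_cases hb : b = i
          · subst hb
            rw [hui, hup a ha, Set.disjoint_union_right]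
            refine ⟨hRD.disj _ _ hab, ?_⟩
            rw [Set.disjoint_left]
            intro v hva hv
            exact (hZO v).mpr ⟨a, hva⟩ hv.1
          · rw [hup a ha, hup b hb]
            exact hRD.disj _ _ hab
      · ext v
        rw [mem_iUnion, mem_compl_iff]
        constructor
        · rintro ⟨j, hj⟩ hvO
          by_cases hji : j = i
          · subst hji
            rw [hui] at hj
            rcases hj with hj | hj
            · exact (hZO v).mpr ⟨j, hj⟩ (hOO v hvO)
            · exact hj.2 hvO
          · rw [hup j hji] at hj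
            exact (hZO v).mpr ⟨j, hj⟩ (hOO v hvO)
        · intro hvO
          by_cases hv : v ∈ Om
          · refine ⟨i, ?_⟩
            rw [hui]
            exact Or.inr ⟨hv, hvO⟩
          · obtain ⟨j, hj⟩ := (hZO v).mp hv
            exact ⟨j, hsup j hj⟩
      · obtain ⟨t, s, ht⟩ := hRD.rain
        exact ⟨t, s, fun j => hsup j (ht j)⟩
      · intro j
        by_cases hj : j = i
        · subst hj
          rw [hxi]
          exact Nat.lt_succ_self N
        · rw [hxp j hj]
          exact (hx j).trans (Nat.lt_succ_self N)
      · intro a b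
        by_cases ha : a = i
        · by_cases hb : b = i
          · rw [ha, hb]
            exact Or.inl rfl
          · rw [ha, hxi, hxp b hb]
            refine Or.inr (Or.inr ?_)
            rw [hC'N]
            exact hxD b
        · by_cases hb : b = i
          · rw [hb, hxi, hxp a ha]
            refine Or.inr (Or.inl ?_)
            rw [hC'N]
            exact hxD a
          · rw [hxp a ha, hxp b hb]
            rcases hxCl a b with h1 | h1 | h1
            · exact Or.inl h1
            · refine Or.inr (Or.inl ?_)
              rw [hC' _ (hx b)]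
              exact h1
            · refine Or.inr (Or.inr ?_)
              rw [hC' _ (hx a)]
              exact h1
      · intro j z hz hzj
        obtain ⟨hzO', u, hu, e⟩ := hz
        by_cases hj : j = i
        · subst hj
          rw [hui] at hzj
          rw [hxi]
          rcases hzj with hzj | hzj
          · exact absurd ⟨u, hu, z, hzj, e⟩ hnt
          · have hzY : z ∈ Y := by
              by_contra hzY
              exact hzj.2 (hOm'.2.2 u hu z ⟨hzj.1, hzY⟩ e)
            simp only [hzY, if_true]
        · rw [hup j hj] at hzj
          rw [hxp j hj]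
          have hzO : z ∉ Om := (hZO z).mpr ⟨j, hzj⟩
          have hzY : z ∉ Y := fun hzY => hzO (hYO hzY)
          simp only [hzY, if_false]
          exact hpart j z ⟨hzO, u, hOO u hu, e⟩ hzj)
  refine ⟨U ∪ Y, _, lev', _, hI, ?_⟩
  refine ⟨subset_union_left, fun hsub => ?_⟩
  obtain ⟨y, hy⟩ := hYne
  exact hOm.1 (hYO hy) (hsub (Or.inr hy))

end Pool.Agent.W839.PS
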